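import Mathlib

/-!
# Two-colourings without three equal consecutive values along increasing sequences

`T s a i` depends only on the values `a i, ..., a (i + s + 4)` of the sequence `a`, takes the values
`true` and `false`, and if `a` is a sequence of numbers below `M s`, consecutive ones distinct, then
no three consecutive values of `T s a` are equal.  Here `M s` is a tower of height about `s`.
-/

set_option autoImplicit false

namespace Pool.Agent.TH134.TR

/-- `M 0 = 6` and `M (i + 1) = 2 ^ (M i / 2)`, a tower of height about `i`. -/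
def M : ℕ → ℕ
  | 0 => 6
  | i + 1 => 2 ^ (M i / 2)

/-- The first binary digit in which two numbers differ. -/
noncomputable def dlt (x y : ℕ) : ℕ := sInf {i | x.testBit i ≠ y.testBit i}

/-- The first digit in which `x` and `y` differ, together with the digit of `x` there. -/
noncomputable def code (x y : ℕ) : ℕ := 2 * dlt x y + (x.testBit (dlt x y)).toNat

theorem dlt_spec {x y : ℕ} (h : x ≠ y) : x.testBit (dlt x y) ≠ y.testBit (dlt x y) := by
  have hne : {i | x.testBit i ≠ y.testBit i}.Nonempty := by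
    by_contra hc
    apply h
    apply Nat.eq_of_testBit_eq
    intro i
    by_contra hi
    exact hc ⟨i, hi⟩
  exact Nat.sInf_mem hne

theorem dlt_lt {x y n : ℕ} (h : x ≠ y) (hx : x < 2 ^ n) (hy : y < 2 ^ n) : dlt x y < n := by
  by_contra hc
  have hc' : n ≤ dlt x y := Nat.le_of_not_lt hc
  have h1 : x.testBit (dlt x y) = false :=
    Nat.testBit_lt_two_pow (lt_of_lt_of_le hx (Nat.pow_le_pow_right (by norm_num) hc'))
  have h2 : y.testBit (dlt x y) = false :=
    Nat.testBit_lt_two_pow (lt_of_lt_of_le hy (Nat.pow_le_pow_right (by norm_num) hc'))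
  exact dlt_spec h (by rw [h1, h2])

theorem code_lt {x y m : ℕ} (h : x ≠ y) (hx : x < 2 ^ (m / 2)) (hy : y < 2 ^ (m / 2)) :
    code x y < m := by
  have h1 := dlt_lt h hx hy
  have h2 : (x.testBit (dlt x y)).toNat ≤ 1 := Bool.toNat_le _
  unfold code
  omega

theorem code_ne {x y : ℕ} (z : ℕ) (hxy : x ≠ y) : code x y ≠ code y z := by
  intro h
  unfold code at h
  have h1 : (x.testBit (dlt x y)).toNat ≤ 1 := Bool.toNat_le _
  have h2 : (y.testBit (dlt y z)).toNat ≤ 1 := Bool.toNat_le _
  have h3 : dlt x y = dlt y z := by omega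
  have h4 : (x.testBit (dlt x y)).toNat = (y.testBit (dlt y z)).toNat := by omega
  rw [← h3] at h4
  have h5 := dlt_spec hxy
  apply h5
  revert h4
  generalize x.testBit (dlt x y) = u
  generalize y.testBit (dlt x y) = w
  revert u w
  decide

/-- One step: apply `f` to consecutive pairs. -/
def step (f : ℕ → ℕ → ℕ) (a : ℕ → ℕ) : ℕ → ℕ := fun i => f (a i) (a (i + 1))

/-- `s` steps with `code`. -/
noncomputable def P : ℕ → (ℕ → ℕ) → ℕ → ℕ
  | 0, a => a
  | s + 1, a => P s (step code a)

/-- The six two-element subsets of `{0, 1, 2, 3}`; the least element of the second one which is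
not in the first one. -/
def six (x y : ℕ) : ℕ :=
  ([[0, 2, 3, 2, 3, 2], [1, 0, 3, 1, 1, 3], [1, 2, 0, 1, 1, 2],
    [0, 0, 0, 0, 3, 3], [0, 0, 0, 2, 0, 2], [0, 0, 0, 1, 1, 0]].getD x []).getD y 0

/-- A table of 256 binary values. -/
def tab (x y z w : ℕ) : Bool :=
  Nat.testBit 778993658369445148829149529588014209248037911167084703378356433276764160
    (64 * x + 16 * y + 4 * z + w)

/-- The colouring. -/
noncomputable def T (s : ℕ) (a : ℕ → ℕ) (i : ℕ) : Bool :=
  let w := step six (P s a)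
  tab (w i) (w (i + 1)) (w (i + 2)) (w (i + 3))

/-- `a 0, ..., a len` are below `m` and consecutive ones are distinct. -/
def Walk (m : ℕ) (a : ℕ → ℕ) (t len : ℕ) : Prop :=
  (∀ j, j ≤ len → a (t + j) < m) ∧ ∀ j, j < len → a (t + j) ≠ a (t + j + 1)

theorem six_lt : ∀ x < 6, ∀ y < 6, six x y < 4 := by decide

theorem six_ne_fin : ∀ x y z : Fin 6, x ≠ y → y ≠ z → six x y ≠ six y z := by decide

theorem six_ne {x y z : ℕ} (hx : x < 6) (hy : y < 6) (hz : z < 6) (h1 : x ≠ y) (h2 : y ≠ z) :
    six x y ≠ six y z :=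
  six_ne_fin ⟨x, hx⟩ ⟨y, hy⟩ ⟨z, hz⟩ (fun h => h1 (congrArg Fin.val h))
    (fun h => h2 (congrArg Fin.val h))

/-- The condition on a word of length six, as a boolean. -/
def chk (a b c d e f : ℕ) : Bool :=
  a == b || b == c || c == d || d == e || e == f ||
    !(tab a b c d == tab b c d e && tab b c d e == tab c d e f)

theorem chk_fin : ∀ a b c d e f : Fin 4, chk a b c d e f = true := by decide +kernel

theorem tab_fin (a b c d e f : Fin 4) (h1 : a ≠ b) (h2 : b ≠ c) (h3 : c ≠ d) (h4 : d ≠ e)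
    (h5 : e ≠ f) : ¬ (tab a b c d = tab b c d e ∧ tab b c d e = tab c d e f) := by
  have h := chk_fin a b c d e f
  have g1 : ((a : ℕ) == b) = false := by simpa [Fin.val_inj] using h1
  have g2 : ((b : ℕ) == c) = false := by simpa [Fin.val_inj] using h2
  have g3 : ((c : ℕ) == d) = false := by simpa [Fin.val_inj] using h3
  have g4 : ((d : ℕ) == e) = false := by simpa [Fin.val_inj] using h4
  have g5 : ((e : ℕ) == f) = false := by simpa [Fin.val_inj] using h5
  unfold chk at h
  rw [g1, g2, g3, g4, g5] at h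
  intro hh
  rw [hh.1, hh.2] at h
  simp at h

theorem tab_ne {a b c d e f : ℕ} (ha : a < 4) (hb : b < 4) (hc : c < 4) (hd : d < 4) (he : e < 4)
    (hf : f < 4) (h1 : a ≠ b) (h2 : b ≠ c) (h3 : c ≠ d) (h4 : d ≠ e) (h5 : e ≠ f) :
    ¬ (tab a b c d = tab b c d e ∧ tab b c d e = tab c d e f) :=
  tab_fin ⟨a, ha⟩ ⟨b, hb⟩ ⟨c, hc⟩ ⟨d, hd⟩ ⟨e, he⟩ ⟨f, hf⟩ (fun h => h1 (congrArg Fin.val h))
    (fun h => h2 (congrArg Fin.val h)) (fun h => h3 (congrArg Fin.val h))
    (fun h => h4 (congrArg Fin.val h)) (fun h => h5 (congrArg Fin.val h))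

theorem walk_code {m : ℕ} {a : ℕ → ℕ} {t len : ℕ} (h : Walk (2 ^ (m / 2)) a t (len + 1)) :
    Walk m (step code a) t len := by
  refine ⟨fun j hj => ?_, fun j hj => ?_⟩
  · have h1 := h.1 j (by omega)
    have h2 := h.1 (j + 1) (by omega)
    have h3 := h.2 j (by omega)
    exact code_lt h3 h1 h2
  · have h1 := h.2 j (by omega)
    exact code_ne _ h1

theorem walk_P : ∀ (s : ℕ) {a : ℕ → ℕ} {t len : ℕ}, Walk (M s) a t (len + s) →
    Walk 6 (P s a) t len := by
  intro s
  induction s with
  | zero => intro a t len h; exact h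
  | succ s ih =>
    intro a t len h
    exact ih (walk_code h)

theorem walk_six {a : ℕ → ℕ} {t len : ℕ} (h : Walk 6 a t (len + 1)) :
    Walk 4 (step six a) t len := by
  refine ⟨fun j hj => ?_, fun j hj => ?_⟩
  · exact six_lt _ (h.1 j (by omega)) _ (h.1 (j + 1) (by omega))
  · exact six_ne (h.1 j (by omega)) (h.1 (j + 1) (by omega)) (h.1 (j + 2) (by omega))
      (h.2 j (by omega)) (h.2 (j + 1) (by omega))

/-- No three consecutive equal values. -/
theorem T_ne (s : ℕ) {a : ℕ → ℕ} {t : ℕ} (h : Walk (M s) a t (6 + s)) :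
    ¬ (T s a t = T s a (t + 1) ∧ T s a (t + 1) = T s a (t + 2)) := by
  have h1 : Walk 4 (step six (P s a)) t 5 := walk_six (walk_P s h)
  exact tab_ne (h1.1 0 (by omega)) (h1.1 1 (by omega)) (h1.1 2 (by omega)) (h1.1 3 (by omega))
    (h1.1 4 (by omega)) (h1.1 5 (by omega)) (h1.2 0 (by omega)) (h1.2 1 (by omega))
    (h1.2 2 (by omega)) (h1.2 3 (by omega)) (h1.2 4 (by omega))

theorem P_congr : ∀ (s : ℕ) {a b : ℕ → ℕ} {t u : ℕ}, (∀ j, j ≤ s → a (t + j) = b (u + j)) →
    P s a t = P s b u := by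
  intro s
  induction s with
  | zero => intro a b t u h; exact h 0 le_rfl
  | succ s ih =>
    intro a b t u h
    apply ih
    intro j hj
    have h1 := h j (by omega)
    have h2 := h (j + 1) (by omega)
    show code (a (t + j)) (a (t + j + 1)) = code (b (u + j)) (b (u + j + 1))
    rw [h1, show t + j + 1 = t + (j + 1) from rfl, h2, show u + j + 1 = u + (j + 1) from rfl]

/-- `T s a t` depends only on `a t, ..., a (t + s + 4)`. -/
theorem T_congr (s : ℕ) {a b : ℕ → ℕ} {t u : ℕ} (h : ∀ j, j ≤ s + 4 → a (t + j) = b (u + j)) :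
    T s a t = T s b u := by
  have key : ∀ i, i ≤ 4 → P s a (t + i) = P s b (u + i) := by
    intro i hi
    apply P_congr
    intro j hj
    have := h (i + j) (by omega)
    rw [show t + i + j = t + (i + j) by omega, show u + i + j = u + (i + j) by omega, this]
  have k0 := key 0 (by omega)
  have k1 := key 1 (by omega)
  have k2 := key 2 (by omega)
  have k3 := key 3 (by omega)
  have k4 := key 4 (by omega)
  simp only [Nat.add_zero] at k0
  show tab (six (P s a t) (P s a (t + 1))) (six (P s a (t + 1)) (P s a (t + 2)))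
      (six (P s a (t + 2)) (P s a (t + 3))) (six (P s a (t + 3)) (P s a (t + 4))) = _
  rw [k0, k1, k2, k3, k4]
  rfl

/-- The two-block colouring. -/
def g (x0 x1 y0 y1 : Bool) : Bool := if x0 = x1 then y0 == x0 else y1 == x0

theorem g_ne : ∀ c0 c1 c2 d0 d1 d2 : Bool, ¬ (c0 = c1 ∧ c1 = c2) → ¬ (d0 = d1 ∧ d1 = d2) →
    ¬ (g c1 c2 d1 d2 = g c0 c1 d1 d2 ∧ g c0 c1 d1 d2 = g c0 c1 d0 d1) := by decide

/-- The colouring of a sequence, by its first `2 (s + 6)` members. -/
noncomputable def G (s : ℕ) (a : ℕ → ℕ) : Bool :=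
  g (T s a 0) (T s a 1) (T s a (s + 6)) (T s a (s + 7))

/-- Main lemma: deleting the members number `0`, `s + 6`, `2 (s + 6)` of an increasing sequence
does not always give the same colour. -/
theorem G_ne (s : ℕ) (v w0 w1 w2 : ℕ → ℕ) (hv : ∀ i j, i < j → j ≤ 2 * (s + 6) → v i < v j)
    (hM : ∀ i, i ≤ 2 * (s + 6) → v i < M s)
    (h0 : ∀ i, i < 2 * (s + 6) → w0 i = v (i + 1))
    (h1 : ∀ i, i < 2 * (s + 6) → w1 i = if i < s + 6 then v i else v (i + 1))
    (h2 : ∀ i, i < 2 * (s + 6) → w2 i = v i) :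
    ¬ (G s w0 = G s w1 ∧ G s w1 = G s w2) := by
  have hc : ¬ (T s v 0 = T s v 1 ∧ T s v 1 = T s v 2) := by
    refine T_ne s (t := 0) ⟨fun j hj => hM _ (by omega), fun j hj => ?_⟩
    exact (hv _ _ (by omega) (by omega)).ne
  have hd : ¬ (T s v (s + 6) = T s v (s + 7) ∧ T s v (s + 7) = T s v (s + 8)) := by
    refine T_ne s (t := s + 6) ⟨fun j hj => hM _ (by omega), fun j hj => ?_⟩
    exact (hv _ _ (by omega) (by omega)).ne
  have e00 : T s w0 0 = T s v 1 := T_congr s fun j hj => by
    rw [h0 _ (by omega)]; congr 1; omega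
  have e01 : T s w0 1 = T s v 2 := T_congr s fun j hj => by
    rw [h0 _ (by omega)]; congr 1; omega
  have e02 : T s w0 (s + 6) = T s v (s + 7) := T_congr s fun j hj => by
    rw [h0 _ (by omega)]; congr 1; omega
  have e03 : T s w0 (s + 7) = T s v (s + 8) := T_congr s fun j hj => by
    rw [h0 _ (by omega)]; congr 1; omega
  have e10 : T s w1 0 = T s v 0 := T_congr s fun j hj => by
    rw [h1 _ (by omega), if_pos (by omega)]
  have e11 : T s w1 1 = T s v 1 := T_congr s fun j hj => by
    rw [h1 _ (by omega), if_pos (by omega)]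
  have e12 : T s w1 (s + 6) = T s v (s + 7) := T_congr s fun j hj => by
    rw [h1 _ (by omega), if_neg (by omega)]; congr 1; omega
  have e13 : T s w1 (s + 7) = T s v (s + 8) := T_congr s fun j hj => by
    rw [h1 _ (by omega), if_neg (by omega)]; congr 1; omega
  have e20 : T s w2 0 = T s v 0 := T_congr s fun j hj => by rw [h2 _ (by omega)]
  have e21 : T s w2 1 = T s v 1 := T_congr s fun j hj => by rw [h2 _ (by omega)]
  have e22 : T s w2 (s + 6) = T s v (s + 6) := T_congr s fun j hj => by rw [h2 _ (by omega)]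
  have e23 : T s w2 (s + 7) = T s v (s + 7) := T_congr s fun j hj => by rw [h2 _ (by omega)]
  unfold G
  rw [e00, e01, e02, e03, e10, e11, e12, e13, e20, e21, e22, e23]
  exact g_ne _ _ _ _ _ _ hc hd

end Pool.Agent.TH134.TR
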