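import Mathlib
import Pool.Agent.Helper850.RC.P_ramsey_step

/-!
# The upper bound of Erdos and Rado for `r_k(k+1)`

Every two-colouring of the increasing `k`-tuples of a set of at least `twr (3 k)` natural numbers
has a homogeneous set with `k + 1` elements.
-/

set_option autoImplicit false

namespace Pool.Agent.TH134.TR

/-- The tower function: `twr 1 = 2` and `twr (i + 1) = 2 ^ twr i`. -/
def twr : ℕ → ℕ
  | 0 => 1
  | i + 1 => 2 ^ twr i

theorem twr_succ (i : ℕ) : twr (i + 1) = 2 ^ twr i := rfl

theorem lt_twr (i : ℕ) : i < twr i := by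
  induction i with
  | zero => exact Nat.one_pos
  | succ i ih =>
    rw [twr_succ]
    exact lt_of_le_of_lt ih Nat.lt_two_pow_self

theorem twr_mono : Monotone twr := by
  apply monotone_nat_of_le_succ
  intro i
  rw [twr_succ]
  exact Nat.lt_two_pow_self.le

/-- The bounds of Erdos and Rado. -/
def B : ℕ → ℕ
  | 0 => 1
  | 1 => 3
  | k + 2 => 2 ^ (3 * (B (k + 1) + 2) ^ (k + 3))

theorem B_le (k : ℕ) : B (k + 1) + 2 ≤ twr (3 * (k + 1)) := by
  induction k with
  | zero => decide
  | succ k ih =>
    have h0 : twr (3 * (k + 1)) = 2 ^ twr (3 * k + 2) := rfl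
    have hy : k + 4 ≤ twr (3 * k + 2) := by
      rcases Nat.eq_zero_or_pos k with h | h
      · subst h; decide
      · have := lt_twr (3 * k + 2)
        omega
    have hy4 : 4 ≤ twr (3 * k + 2) := le_trans (by omega) hy
    have key : ∀ y : ℕ, 4 ≤ y → (y - 1) * y + 2 ≤ 2 ^ y := by
      intro y hy
      induction y, hy using Nat.le_induction with
      | base => norm_num
      | succ y hy ih2 =>
        have h1 : y + 1 - 1 = y := by omega
        rw [h1, pow_succ]
        obtain ⟨z, rfl⟩ : ∃ z, y = z + 4 := ⟨y - 4, by omega⟩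
        have h2 : z + 4 - 1 = z + 3 := by omega
        rw [h2] at ih2
        nlinarith
    have h1 : 3 * (B (k + 1) + 2) ^ (k + 3) ≤ 2 ^ twr (3 * (k + 1)) := by
      calc 3 * (B (k + 1) + 2) ^ (k + 3) ≤ 2 ^ 2 * (twr (3 * (k + 1))) ^ (k + 3) :=
            Nat.mul_le_mul (by norm_num) (Nat.pow_le_pow_left ih _)
        _ = 2 ^ (2 + twr (3 * k + 2) * (k + 3)) := by
            rw [h0, ← pow_mul, ← pow_add]
        _ ≤ 2 ^ twr (3 * (k + 1)) := by
            apply Nat.pow_le_pow_right (by norm_num)
            rw [h0]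
            refine le_trans ?_ (key _ hy4)
            have h3 : k + 3 ≤ twr (3 * k + 2) - 1 := by omega
            have h4 := Nat.mul_le_mul_right (twr (3 * k + 2)) h3
            rw [Nat.mul_comm (k + 3)] at h4
            omega
    have h2 : B (k + 2) ≤ twr (3 * (k + 1) + 2) := by
      show 2 ^ (3 * (B (k + 1) + 2) ^ (k + 3)) ≤ 2 ^ (2 ^ twr (3 * (k + 1)))
      exact Nat.pow_le_pow_right (by norm_num) h1
    have h3 : 2 ≤ twr (3 * (k + 1) + 2) := by
      have := lt_twr (3 * (k + 1) + 2)
      omega
    have h4 : ∀ x : ℕ, 2 ≤ x → x + 2 ≤ 2 ^ x := by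
      intro x hx
      induction x, hx using Nat.le_induction with
      | base => norm_num
      | succ x hx ih2 => rw [pow_succ]; omega
    calc B (k + 1 + 1) + 2 ≤ twr (3 * (k + 1) + 2) + 2 := Nat.add_le_add_right h2 2
      _ ≤ 2 ^ twr (3 * (k + 1) + 2) := h4 _ h3
      _ = twr (3 * (k + 1 + 1)) := rfl

theorem snoc_strictMono {t : ℕ} (z : Fin t → ℕ) (M0 : ℕ) (hz : StrictMono z) (h : ∀ l, z l < M0) :
    StrictMono (Fin.snoc (α := fun _ => ℕ) z M0 : Fin (t + 1) → ℕ) := by
  intro i j hij
  induction j using Fin.lastCases with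
  | last =>
    induction i using Fin.lastCases with
    | last => exact absurd hij (lt_irrefl _)
    | cast i' => rw [Fin.snoc_last, Fin.snoc_castSucc]; exact h i'
  | cast j' =>
    induction i using Fin.lastCases with
    | last => exact absurd (hij.trans (Fin.castSucc_lt_last j')) (lt_irrefl _)
    | cast i' =>
      rw [Fin.snoc_castSucc, Fin.snoc_castSucc]
      exact hz (Fin.castSucc_lt_castSucc_iff.mp hij)

/-- The theorem of Erdos and Rado for `k + 1` points. -/
theorem homogeneous (k : ℕ) : ∀ S : Finset ℕ, B (k + 1) ≤ S.card →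
    ∀ χ : (Fin (k + 1) → ℕ) → Fin 2, ∃ T ⊆ S, T.card = k + 2 ∧ ∃ c : Fin 2,
      ∀ x : Fin (k + 1) → ℕ, StrictMono x → (∀ l, x l ∈ T) → χ x = c := by
  induction k with
  | zero =>
    intro S hS χ
    have h3 : 3 ≤ S.card := hS
    obtain ⟨c, hc⟩ : ∃ c : Fin 2, 2 ≤ (S.filter (fun x => χ (fun _ => x) = c)).card := by
      by_contra hcon
      push Not at hcon
      have h1 : S.card = ∑ c : Fin 2, (S.filter (fun x => χ (fun _ => x) = c)).card :=
        Finset.card_eq_sum_card_fiberwise (fun x _ => Finset.mem_univ _)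
      rw [Fin.sum_univ_two] at h1
      have := hcon 0
      have := hcon 1
      omega
    obtain ⟨T, hT, hTc⟩ := Finset.exists_subset_card_eq hc
    refine ⟨T, hT.trans (Finset.filter_subset _ _), hTc, c, fun x _ hx => ?_⟩
    have h4 := (Finset.mem_filter.1 (hT (hx 0))).2
    have h5 : x = fun _ => x 0 := by
      funext l
      exact congrArg x (Subsingleton.elim (α := Fin 1) l 0)
    rw [h5]
    exact h4
  | succ k ih =>
    intro S hS χ
    obtain ⟨T1, hT1, hT1c, hT1h⟩ := RC.ramsey_step (k + 1) 2 (B (k + 1) + 1) S hS χ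
    have hne : T1.Nonempty := by
      rw [← Finset.card_pos, hT1c]; omega
    set M0 := T1.max' hne with hM0
    have hM0m : M0 ∈ T1 := Finset.max'_mem _ _
    have hT2c : (T1.erase M0).card = B (k + 1) := by
      rw [Finset.card_erase_of_mem hM0m, hT1c]; rfl
    obtain ⟨T, hT, hTc, c, hTh⟩ := ih (T1.erase M0) hT2c.ge
      (fun z => χ (Fin.snoc (α := fun _ => ℕ) z M0 : Fin (k + 1 + 1) → ℕ))
    have hlt : ∀ v ∈ T, v < M0 := by
      intro v hv
      have h2 := Finset.mem_erase.mp (hT hv)
      exact lt_of_le_of_ne (Finset.le_max' _ _ h2.2) h2.1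
    have hT1' : ∀ v ∈ T, v ∈ T1 := fun v hv => (Finset.mem_erase.mp (hT hv)).2
    have hMT : M0 ∉ T := fun h => lt_irrefl _ (hlt _ h)
    refine ⟨insert M0 T, ?_, ?_, c, ?_⟩
    · intro v hv
      rcases Finset.mem_insert.1 hv with h | h
      · rw [h]; exact hT1 hM0m
      · exact hT1 (hT1' v h)
    · rw [Finset.card_insert_of_notMem hMT, hTc]
    · intro x hx hxT
      have hxc : ∀ l : Fin (k + 1), x l.castSucc ∈ T := by
        intro l
        rcases Finset.mem_insert.1 (hxT l.castSucc) with h | h
        · exfalso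
          have h1 : x l.castSucc < x (Fin.last (k + 1)) := hx (Fin.castSucc_lt_last l)
          have h2 : x (Fin.last (k + 1)) ≤ M0 := by
            rcases Finset.mem_insert.1 (hxT (Fin.last (k + 1))) with h' | h'
            · exact h'.le
            · exact (hlt _ h').le
          omega
        · exact h
      have key : χ x = χ (Fin.snoc (α := fun _ => ℕ) (fun l : Fin (k + 1) => x l.castSucc) M0 :
          Fin (k + 1 + 1) → ℕ) := by
        apply hT1h x _ hx
        · apply snoc_strictMono
          · exact hx.comp (Fin.strictMono_castSucc)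
          · exact fun l => hlt _ (hxc _)
        · intro l
          rcases Finset.mem_insert.1 (hxT l) with h | h
          · rw [h]; exact hM0m
          · exact hT1' _ h
        · intro l
          induction l using Fin.lastCases with
          | last => rw [Fin.snoc_last]; exact hM0m
          | cast l' => rw [Fin.snoc_castSucc]; exact hT1' _ (hxc _)
        · intro l
          rw [Fin.snoc_castSucc]
      rw [key]
      exact hTh _ (hx.comp Fin.strictMono_castSucc) (fun l => hxc _)

end Pool.Agent.TH134.TR
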